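import Pool.Agent.V1139.SL2.Rep

set_option autoImplicit false

open Matrix Module

namespace Pool.Agent.V1139.Leonard

/-- `M` is an irreducible tridiagonal matrix. -/
def IrredTridiag {K : Type} [Field K] {n : ℕ} (M : Matrix (Fin n) (Fin n) K) : Prop :=
  (∀ i j : Fin n, (i.val + 1 < j.val ∨ j.val + 1 < i.val) → M i j = 0) ∧
  (∀ i j : Fin n, (i.val + 1 = j.val ∨ j.val + 1 = i.val) → M i j ≠ 0)

/-- `M` is a diagonal matrix. -/
def Diag {K : Type} [Field K] {n : ℕ} (M : Matrix (Fin n) (Fin n) K) : Prop :=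
  ∀ i j : Fin n, i ≠ j → M i j = 0

/-- There is a basis of `V` in which `X` is diagonal while `Y`, `Z` are both irreducible
tridiagonal. -/
def HasAdaptedBasis {K V : Type} [Field K] [AddCommGroup V] [Module K V]
    (X Y Z : V →ₗ[K] V) : Prop :=
  ∃ (n : ℕ) (b : Basis (Fin n) K V), Diag (LinearMap.toMatrix b b X) ∧
    IrredTridiag (LinearMap.toMatrix b b Y) ∧ IrredTridiag (LinearMap.toMatrix b b Z)

/-- Leonard triples. -/
def IsLeonardTriple {K V : Type} [Field K] [AddCommGroup V] [Module K V]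
    (A B C : V →ₗ[K] V) : Prop :=
  HasAdaptedBasis A B C ∧ HasAdaptedBasis B A C ∧ HasAdaptedBasis C A B

end Pool.Agent.V1139.Leonard

namespace Pool.Agent.V1139.SL2

open Pool.Agent.V1139.Leonard

variable {K : Type} [Field K]

/-- Determinant of two plane vectors. -/
def cr (u v : Fin 2 → K) : K := u 0 * v 1 - u 1 * v 0

theorem decomp_p (p q : Fin 2 → K) (h : p 0 * q 1 - p 1 * q 0 ≠ 0) (v : Fin 2 → K) :
    v = (cr v q / (p 0 * q 1 - p 1 * q 0)) • p + (cr p v / (p 0 * q 1 - p 1 * q 0)) • q := by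
  have key : ∀ i, v i = (v 0 * q 1 - v 1 * q 0) / (p 0 * q 1 - p 1 * q 0) * p i
      + (p 0 * v 1 - p 1 * v 0) / (p 0 * q 1 - p 1 * q 0) * q i := by
    intro i
    rw [div_mul_eq_mul_div, div_mul_eq_mul_div, ← add_div, eq_div_iff h]
    fin_cases i
    · simp only [Fin.zero_eta]; ring
    · simp only [Fin.mk_one]; ring
  ext i
  simpa [cr] using key i

variable [CharZero K]

theorem adapted (d : ℕ) (p q : Fin 2 → K) (h : p 0 * q 1 - p 1 * q 0 ≠ 0)
    (M1 M2 M3 : Matrix (Fin 2) (Fin 2) K)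
    (h1p : cr p (M1 *ᵥ p) = 0) (h1q : cr q (M1 *ᵥ q) = 0)
    (h2p : cr p (M2 *ᵥ p) ≠ 0) (h2q : cr q (M2 *ᵥ q) ≠ 0)
    (h3p : cr p (M3 *ᵥ p) ≠ 0) (h3q : cr q (M3 *ᵥ q) ≠ 0) :
    HasAdaptedBasis (Matrix.toLin' (SymRep d M1)) (Matrix.toLin' (SymRep d M2))
      (Matrix.toLin' (SymRep d M3)) := by
  have hq' : ∀ v : Fin 2 → K, cr v q = - cr q v := by intro v; unfold cr; ring
  have irr : ∀ M : Matrix (Fin 2) (Fin 2) K, cr p (M *ᵥ p) ≠ 0 → cr q (M *ᵥ q) ≠ 0 →
      IrredTridiag (LinearMap.toMatrix (fbasis d p q h) (fbasis d p q h)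
        (Matrix.toLin' (SymRep d M))) := by
    intro M hMp hMq
    constructor
    · intro i j hij
      rw [toMatrix_fbasis d p q h M _ _ _ _ (decomp_p p q h (M *ᵥ p)) (decomp_p p q h (M *ᵥ q))]
      rw [if_neg (by omega), if_neg (by omega), if_neg (by omega)]
    · intro i j hij
      rw [toMatrix_fbasis d p q h M _ _ _ _ (decomp_p p q h (M *ᵥ p)) (decomp_p p q h (M *ᵥ q))]
      rcases hij with hij | hij
      · rw [if_neg (by omega), if_neg (by omega), if_pos (by omega)]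
        refine mul_ne_zero ?_ ?_
        · exact_mod_cast (by omega : j.val ≠ 0)
        · rw [hq']
          exact div_ne_zero (neg_ne_zero.mpr hMq) h
      · rw [if_neg (by omega), if_pos (by omega)]
        refine mul_ne_zero ?_ ?_
        · have : j.val < d := by omega
          rw [sub_ne_zero]
          exact_mod_cast (by omega : d ≠ j.val)
        · exact div_ne_zero hMp h
  refine ⟨d + 1, fbasis d p q h, ?_, irr M2 h2p h2q, irr M3 h3p h3q⟩
  intro i j hij
  have hij' : i.val ≠ j.val := fun h => hij (Fin.ext h)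
  rw [toMatrix_fbasis d p q h M1 _ _ _ _ (decomp_p p q h (M1 *ᵥ p)) (decomp_p p q h (M1 *ᵥ q))]
  rw [if_neg hij', hq', h1p, h1q]
  simp

end Pool.Agent.V1139.SL2
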