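import Mathlib

set_option autoImplicit false

open Matrix Module Polynomial

namespace Pool.Agent.V1139.SL2

variable {K : Type} [Field K]

/-- Action of a `2 × 2` matrix on binary forms of degree `d`, in the basis
`binom(d,i) X^(d-i) Y^i`. -/
def SymRep (d : ℕ) (M : Matrix (Fin 2) (Fin 2) K) : Matrix (Fin (d + 1)) (Fin (d + 1)) K :=
  fun i j => if i.val = j.val then ((d : K) - i.val) * M 0 0 + i.val * M 1 1
    else if i.val = j.val + 1 then (i.val : K) * M 1 0
    else if j.val = i.val + 1 then ((d : K) - i.val) * M 0 1 else 0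

theorem rep_mulVec (d : ℕ) (M : Matrix (Fin 2) (Fin 2) K) (w : ℕ → K) (i : Fin (d + 1)) :
    (SymRep d M *ᵥ (fun j : Fin (d + 1) => w j.val)) i
      = (((d : K) - i.val) * M 0 0 + i.val * M 1 1) * w i.val
        + (i.val : K) * M 1 0 * w (i.val - 1)
        + ((d : K) - i.val) * M 0 1 * w (i.val + 1) := by
  obtain ⟨i, hi⟩ := i
  simp only [Matrix.mulVec, dotProduct, SymRep]
  rw [Fin.sum_univ_eq_sum_range (fun j => (if i = j then ((d : K) - i) * M 0 0 + i * M 1 1
    else if i = j + 1 then (i : K) * M 1 0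
    else if j = i + 1 then ((d : K) - i) * M 0 1 else 0) * w j) (d + 1)]
  have h : ∀ j ∈ Finset.range (d + 1), (if i = j then ((d : K) - i) * M 0 0 + i * M 1 1
    else if i = j + 1 then (i : K) * M 1 0
    else if j = i + 1 then ((d : K) - i) * M 0 1 else 0) * w j
      = (if i = j then (((d : K) - i) * M 0 0 + i * M 1 1) * w i else 0)
        + (if i = j + 1 then (i : K) * M 1 0 * w (i - 1) else 0)
        + (if i + 1 = j then ((d : K) - i) * M 0 1 * w (i + 1) else 0) := by
    intro j _
    by_cases h1 : i = j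
    · subst h1; simp
    · by_cases h2 : i = j + 1
      · subst h2
        have e1 : ¬ j + 1 + 1 = j := by omega
        simp [e1]
      · by_cases h3 : i + 1 = j
        · subst h3
          have e1 : ¬ i = i + 1 + 1 := by omega
          simp [e1]
        · have h3' : ¬ j = i + 1 := fun h => h3 h.symm
          simp [h1, h2, h3, h3']
  rw [Finset.sum_congr rfl h, Finset.sum_add_distrib, Finset.sum_add_distrib]
  congr 1
  · congr 1
    · rw [Finset.sum_ite_eq]; simp [hi]
    · rcases Nat.eq_zero_or_pos i with h0 | h0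
      · subst h0; simp
      · obtain ⟨k, rfl⟩ : ∃ k, i = k + 1 := ⟨i - 1, by omega⟩
        have : ∀ j ∈ Finset.range (d + 1), (if k + 1 = j + 1 then (((k + 1 : ℕ) : K)) * M 1 0 * w (k + 1 - 1) else 0)
          = if k = j then (((k + 1 : ℕ) : K)) * M 1 0 * w (k + 1 - 1) else 0 := by
          intro j _; simp
        rw [Finset.sum_congr rfl this, Finset.sum_ite_eq]
        simp; omega
  · rw [Finset.sum_ite_eq]
    split_ifs with h4
    · rfl
    · have : i = d := by simp at h4; omega
      subst this; simp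

/-- The operator on polynomials corresponding to `SymRep d M`. -/
noncomputable def T (d : ℕ) (M : Matrix (Fin 2) (Fin 2) K) (f : K[X]) : K[X] :=
  (C (M 0 0) + C (M 1 0) * X) * (C (d : K) * f - X * derivative f)
    + (C (M 0 1) + C (M 1 1) * X) * derivative f

/-- Coordinates of a polynomial of degree `≤ d`. -/
noncomputable def coord (d : ℕ) (f : K[X]) : Fin (d + 1) → K :=
  fun j => f.coeff j.val / (d.choose j.val : K)

theorem coeff_T (d : ℕ) (M : Matrix (Fin 2) (Fin 2) K) (f : K[X]) (n : ℕ) :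
    (T d M f).coeff n = M 0 0 * ((d : K) - n) * f.coeff n
      + (if n = 0 then 0 else M 1 0 * ((d : K) - (n - 1)) * f.coeff (n - 1))
      + M 0 1 * (n + 1) * f.coeff (n + 1) + M 1 1 * n * f.coeff n := by
  have hX : ∀ g : K[X], ∀ m : ℕ, (X * derivative g).coeff m = m * g.coeff m := by
    intro g m
    cases m with
    | zero => simp
    | succ m => rw [coeff_X_mul, coeff_derivative]; push_cast; ring
  have e : T d M f = C (M 0 0) * (C (d : K) * f - X * derivative f)
      + X * (C (M 1 0) * (C (d : K) * f - X * derivative f))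
      + C (M 0 1) * derivative f + C (M 1 1) * (X * derivative f) := by
    unfold T; ring
  rw [e]
  simp only [coeff_add, coeff_C_mul, coeff_sub, hX, coeff_derivative]
  cases n with
  | zero => simp; ring
  | succ m =>
    rw [coeff_X_mul]
    simp only [coeff_C_mul, coeff_sub, hX]
    simp
    ring

theorem coord_T (d : ℕ) (hd : ∀ n ≤ d, (d.choose n : K) ≠ 0) (M : Matrix (Fin 2) (Fin 2) K)
    (f : K[X]) (hf : f.natDegree ≤ d) :
    SymRep d M *ᵥ coord d f = coord d (T d M f) := by
  ext i
  have h := rep_mulVec d M (fun n => f.coeff n / (d.choose n : K)) i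
  change (SymRep d M *ᵥ (fun j : Fin (d + 1) => f.coeff j.val / (d.choose j.val : K))) i = _
  rw [h]
  obtain ⟨i, hi⟩ := i
  have hi' : i ≤ d := by omega
  simp only [coord, coeff_T]
  have c0 := hd i hi'
  -- lower term
  have low : (i : K) * M 1 0 * (f.coeff (i - 1) / (d.choose (i - 1) : K))
      = (if i = 0 then 0 else M 1 0 * ((d : K) - (i - 1)) * f.coeff (i - 1)) / (d.choose i : K) := by
    cases i with
    | zero => simp
    | succ k =>
      have c1 := hd k (by omega)
      have e1 : ((d.choose (k + 1) : ℕ) : K) * (k + 1) = (d.choose k : K) * (d - k) := by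
        have := Nat.choose_succ_right_eq d k
        have h2 : ((d.choose (k + 1) * (k + 1) : ℕ) : K) = ((d.choose k * (d - k) : ℕ) : K) := by
          rw [this]
        rw [Nat.cast_mul, Nat.cast_mul, Nat.cast_sub (by omega)] at h2
        push_cast at h2
        exact h2
      simp only [Nat.add_sub_cancel, Nat.succ_ne_zero, if_false]
      push_cast
      field_simp
      linear_combination (M 1 0 * f.coeff k) * e1
  have up : ((d : K) - i) * M 0 1 * (f.coeff (i + 1) / (d.choose (i + 1) : K))
      = M 0 1 * (i + 1) * f.coeff (i + 1) / (d.choose i : K) := by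
    rcases Nat.lt_or_ge i d with h1 | h1
    · have c1 := hd (i + 1) (by omega)
      have e1 : ((d.choose (i + 1) : ℕ) : K) * (i + 1) = (d.choose i : K) * (d - i) := by
        have := Nat.choose_succ_right_eq d i
        have h2 : ((d.choose (i + 1) * (i + 1) : ℕ) : K) = ((d.choose i * (d - i) : ℕ) : K) := by
          rw [this]
        rw [Nat.cast_mul, Nat.cast_mul, Nat.cast_sub (by omega)] at h2
        push_cast at h2
        exact h2
      field_simp
      linear_combination (-(M 0 1 * f.coeff (i + 1))) * e1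
    · have : f.coeff (i + 1) = 0 := coeff_eq_zero_of_natDegree_lt (by omega)
      rw [this]; simp
  rw [low, up]
  ring

/-- The linear form with coefficient vector `p`. -/
noncomputable def lf (p : Fin 2 → K) : K[X] := C (p 0) + C (p 1) * X

theorem natDegree_lf (p : Fin 2 → K) : (lf p).natDegree ≤ 1 := by
  unfold lf; compute_degree

theorem T_prod (m n : ℕ) (M : Matrix (Fin 2) (Fin 2) K) (p q : Fin 2 → K) (a b c e : K)
    (hp : M *ᵥ p = a • p + c • q) (hq : M *ᵥ q = b • p + e • q) :
    T (m + n) M (lf p ^ m * lf q ^ n)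
      = C ((m : K) * a + n * e) * (lf p ^ m * lf q ^ n)
        + C ((m : K) * c) * (lf p ^ (m - 1) * lf q ^ (n + 1))
        + C ((n : K) * b) * (lf p ^ (m + 1) * lf q ^ (n - 1)) := by
  have hp0 := congrFun hp 0
  have hp1 := congrFun hp 1
  have hq0 := congrFun hq 0
  have hq1 := congrFun hq 1
  simp [Matrix.mulVec, dotProduct, Fin.sum_univ_two] at hp0 hp1 hq0 hq1
  have dP : derivative (lf p) = C (p 1) := by simp [lf]
  have dQ : derivative (lf q) = C (q 1) := by simp [lf]
  have e1 : derivative (lf p ^ m * lf q ^ n)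
      = C (m : K) * C (p 1) * (lf p ^ (m - 1) * lf q ^ n)
        + C (n : K) * C (q 1) * (lf p ^ m * lf q ^ (n - 1)) := by
    rw [derivative_mul, derivative_pow, derivative_pow, dP, dQ]
    simp; ring
  have pm : (C (m : K)) * lf p ^ m = C (m : K) * (lf p ^ (m - 1) * lf p) := by
    cases m with
    | zero => simp
    | succ k => simp [pow_succ]
  have qn : (C (n : K)) * lf q ^ n = C (n : K) * (lf q ^ (n - 1) * lf q) := by
    cases n with
    | zero => simp
    | succ k => simp [pow_succ]
  have e2 : C (((m + n : ℕ)) : K) * (lf p ^ m * lf q ^ n) - X * derivative (lf p ^ m * lf q ^ n)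
      = C (m : K) * C (p 0) * (lf p ^ (m - 1) * lf q ^ n)
        + C (n : K) * C (q 0) * (lf p ^ m * lf q ^ (n - 1)) := by
    rw [e1]
    have f1 : C (((m + n : ℕ)) : K) * (lf p ^ m * lf q ^ n)
        = (C (m : K) * (lf p ^ (m - 1) * lf p)) * lf q ^ n
          + lf p ^ m * (C (n : K) * (lf q ^ (n - 1) * lf q)) := by
      rw [← pm, ← qn]; push_cast; rw [C_add]; ring
    rw [f1]
    have lp : lf p = C (p 0) + C (p 1) * X := rfl
    have lq : lf q = C (q 0) + C (q 1) * X := rfl
    have g1 : lf p ^ (m - 1) * lf p = lf p ^ (m - 1) * (C (p 0) + C (p 1) * X) := by rw [← lp]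
    have g2 : lf q ^ (n - 1) * lf q = lf q ^ (n - 1) * (C (q 0) + C (q 1) * X) := by rw [← lq]
    rw [g1, g2]
    ring
  unfold T
  rw [e2, e1]
  have r1 : (C (M 0 0) + C (M 1 0) * X) * C (p 0) + (C (M 0 1) + C (M 1 1) * X) * C (p 1)
      = C a * lf p + C c * lf q := by
    have h0 : C (M 0 0) * C (p 0) + C (M 0 1) * C (p 1) = C a * C (p 0) + C c * C (q 0) := by
      rw [← C_mul, ← C_mul, ← C_add, hp0]; simp
    have h1 : C (M 1 0) * C (p 0) + C (M 1 1) * C (p 1) = C a * C (p 1) + C c * C (q 1) := by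
      rw [← C_mul, ← C_mul, ← C_add, hp1]; simp
    unfold lf
    linear_combination h0 + X * h1
  have r2 : (C (M 0 0) + C (M 1 0) * X) * C (q 0) + (C (M 0 1) + C (M 1 1) * X) * C (q 1)
      = C b * lf p + C e * lf q := by
    have h0 : C (M 0 0) * C (q 0) + C (M 0 1) * C (q 1) = C b * C (p 0) + C e * C (q 0) := by
      rw [← C_mul, ← C_mul, ← C_add, hq0]; simp
    have h1 : C (M 1 0) * C (q 0) + C (M 1 1) * C (q 1) = C b * C (p 1) + C e * C (q 1) := by
      rw [← C_mul, ← C_mul, ← C_add, hq1]; simp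
    unfold lf
    linear_combination h0 + X * h1
  have e3 : lf q ^ (n + 1) = lf q ^ n * lf q := pow_succ _ _
  have e4 : lf p ^ (m + 1) = lf p ^ m * lf p := pow_succ _ _
  have pm' : C (m : K) * C a * (lf p ^ (m - 1) * lf p) = C (m : K) * C a * lf p ^ m := by
    linear_combination (-C a) * pm
  have qn' : C (n : K) * C e * (lf q ^ (n - 1) * lf q) = C (n : K) * C e * lf q ^ n := by
    linear_combination (-C e) * qn
  rw [e3, e4, C_add, C_mul, C_mul, C_mul, C_mul]
  linear_combination (C (m : K) * (lf p ^ (m - 1) * lf q ^ n)) * r1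
    + (C (n : K) * (lf p ^ m * lf q ^ (n - 1))) * r2 + lf q ^ n * pm' + lf p ^ m * qn'

/-- The vectors of the adapted basis. -/
noncomputable def fb (d : ℕ) (p q : Fin 2 → K) (j : ℕ) : Fin (d + 1) → K :=
  coord d (lf p ^ (d - j) * lf q ^ j)

theorem natDegree_prod (m n : ℕ) (p q : Fin 2 → K) :
    (lf p ^ m * lf q ^ n).natDegree ≤ m + n := by
  refine natDegree_mul_le.trans (Nat.add_le_add ?_ ?_)
  · refine (natDegree_pow_le).trans ?_
    calc m * (lf p).natDegree ≤ m * 1 := Nat.mul_le_mul_left _ (natDegree_lf p)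
      _ = m := by ring
  · refine (natDegree_pow_le).trans ?_
    calc n * (lf q).natDegree ≤ n * 1 := Nat.mul_le_mul_left _ (natDegree_lf q)
      _ = n := by ring

theorem coord_add (d : ℕ) (f g : K[X]) : coord d (f + g) = coord d f + coord d g := by
  ext i; simp [coord, add_div]

theorem coord_C_mul (d : ℕ) (a : K) (f : K[X]) : coord d (C a * f) = a • coord d f := by
  ext i; simp [coord, mul_div_assoc]

theorem rep_fb (d : ℕ) (hd : ∀ n ≤ d, (d.choose n : K) ≠ 0) (M : Matrix (Fin 2) (Fin 2) K)
    (p q : Fin 2 → K) (a b c e : K)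
    (hp : M *ᵥ p = a • p + c • q) (hq : M *ᵥ q = b • p + e • q) (j : ℕ) (hj : j ≤ d) :
    SymRep d M *ᵥ fb d p q j = (((d : K) - j) * a + j * e) • fb d p q j
      + (((d : K) - j) * c) • fb d p q (j + 1) + ((j : K) * b) • fb d p q (j - 1) := by
  obtain ⟨m, rfl⟩ : ∃ m, d = m + j := ⟨d - j, by omega⟩
  have h := T_prod m j M p q a b c e hp hq
  have h2 := coord_T (m + j) hd M (lf p ^ m * lf q ^ j) (natDegree_prod m j p q)
  have e0 : fb (m + j) p q j = coord (m + j) (lf p ^ m * lf q ^ j) := by
    unfold fb; rw [Nat.add_sub_cancel]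
  rw [e0, h2, h, coord_add, coord_add, coord_C_mul, coord_C_mul, coord_C_mul]
  have e1 : ((m : K) * c) • coord (m + j) (lf p ^ (m - 1) * lf q ^ (j + 1))
      = ((m : K) * c) • fb (m + j) p q (j + 1) := by
    unfold fb; rw [show m + j - (j + 1) = m - 1 by omega]
  have e2 : ((j : K) * b) • coord (m + j) (lf p ^ (m + 1) * lf q ^ (j - 1))
      = ((j : K) * b) • fb (m + j) p q (j - 1) := by
    cases j with
    | zero => simp
    | succ k => unfold fb; rw [show m + (k + 1) - (k + 1 - 1) = m + 1 by omega]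
  rw [e1, e2]
  push_cast
  rw [show ((m : K) + j - j) = m by ring]

theorem coord_ne_zero (d : ℕ) (hd : ∀ n ≤ d, (d.choose n : K) ≠ 0) (f : K[X])
    (hf : f.natDegree ≤ d) (h0 : f ≠ 0) : coord d f ≠ 0 := by
  intro h
  apply h0
  ext n
  rcases Nat.lt_or_ge d n with h1 | h1
  · rw [coeff_eq_zero_of_natDegree_lt (by omega), coeff_zero]
  · have := congrFun h ⟨n, by omega⟩
    simp only [coord, Pi.zero_apply, div_eq_zero_iff] at this
    rcases this with h2 | h2
    · rw [h2, coeff_zero]
    · exact absurd h2 (hd n h1)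

theorem lf_ne_zero (p : Fin 2 → K) (h : p ≠ 0) : lf p ≠ 0 := by
  intro h0
  apply h
  have c0 : (lf p).coeff 0 = 0 := by rw [h0, coeff_zero]
  have c1 : (lf p).coeff 1 = 0 := by rw [h0, coeff_zero]
  simp [lf] at c0 c1
  ext i
  fin_cases i
  · simpa using c0
  · simpa using c1

section charzero

variable [CharZero K]

theorem choose_ne (d : ℕ) : ∀ n ≤ d, (d.choose n : K) ≠ 0 := by
  intro n hn
  exact_mod_cast (Nat.choose_pos hn).ne'

/-- The projection matrix killing `p` and fixing `q`. -/
def prj (p q : Fin 2 → K) : Matrix (Fin 2) (Fin 2) K :=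
  (p 0 * q 1 - p 1 * q 0)⁻¹ • !![-(q 0 * p 1), q 0 * p 0; -(q 1 * p 1), q 1 * p 0]

theorem prj_p (p q : Fin 2 → K) :
    prj p q *ᵥ p = (0 : K) • p + (0 : K) • q := by
  ext i
  fin_cases i <;> simp [prj, Matrix.mulVec, dotProduct, Fin.sum_univ_two] <;> ring_nf

theorem prj_q (p q : Fin 2 → K) (h : p 0 * q 1 - p 1 * q 0 ≠ 0) :
    prj p q *ᵥ q = (0 : K) • p + (1 : K) • q := by
  ext i
  fin_cases i
  · simp [prj, Matrix.mulVec, dotProduct, Fin.sum_univ_two]
    field_simp
    ring
  · simp [prj, Matrix.mulVec, dotProduct, Fin.sum_univ_two]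
    field_simp
    ring

theorem fb_ne_zero (d : ℕ) (p q : Fin 2 → K) (h : p 0 * q 1 - p 1 * q 0 ≠ 0) (j : ℕ)
    (hj : j ≤ d) : fb d p q j ≠ 0 := by
  have hp : p ≠ 0 := by
    rintro rfl; apply h; simp
  have hq : q ≠ 0 := by
    rintro rfl; apply h; simp
  unfold fb
  apply coord_ne_zero d (choose_ne d)
  · refine (natDegree_prod _ _ p q).trans (by omega)
  · exact mul_ne_zero (pow_ne_zero _ (lf_ne_zero p hp)) (pow_ne_zero _ (lf_ne_zero q hq))

theorem fb_li (d : ℕ) (p q : Fin 2 → K) (h : p 0 * q 1 - p 1 * q 0 ≠ 0) :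
    LinearIndependent K (fun j : Fin (d + 1) => fb d p q j.val) := by
  refine Module.End.eigenvectors_linearIndependent' (Matrix.toLin' (SymRep d (prj p q)))
    (fun j : Fin (d + 1) => (j.val : K)) ?_ _ ?_
  · intro i j hij
    have h' : ((i.val : ℕ) : K) = ((j.val : ℕ) : K) := hij
    exact Fin.ext (by exact_mod_cast h')
  · intro j
    refine ⟨?_, fb_ne_zero d p q h j.val (by omega)⟩
    rw [Module.End.mem_eigenspace_iff, Matrix.toLin'_apply,
      rep_fb d (choose_ne d) (prj p q) p q 0 0 0 1 (prj_p p q) (prj_q p q h) j.val (by omega)]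
    simp

/-- The adapted basis. -/
noncomputable def fbasis (d : ℕ) (p q : Fin 2 → K) (h : p 0 * q 1 - p 1 * q 0 ≠ 0) :
    Basis (Fin (d + 1)) K (Fin (d + 1) → K) :=
  basisOfLinearIndependentOfCardEqFinrank (fb_li d p q h) (by simp)

theorem fbasis_apply (d : ℕ) (p q : Fin 2 → K) (h : p 0 * q 1 - p 1 * q 0 ≠ 0)
    (j : Fin (d + 1)) : fbasis d p q h j = fb d p q j.val := by
  simp [fbasis]

theorem repr_fb (d : ℕ) (p q : Fin 2 → K) (h : p 0 * q 1 - p 1 * q 0 ≠ 0)
    (i : Fin (d + 1)) (n : ℕ) (hn : n ≤ d) :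
    (fbasis d p q h).repr (fb d p q n) i = if i.val = n then 1 else 0 := by
  have e1 : fb d p q n = fbasis d p q h ⟨n, by omega⟩ := (fbasis_apply d p q h ⟨n, by omega⟩).symm
  rw [e1, Basis.repr_self, Finsupp.single_apply]
  by_cases h2 : i.val = n
  · have : (⟨n, by omega⟩ : Fin (d + 1)) = i := Fin.ext h2.symm
    rw [if_pos this, if_pos h2]
  · have : ¬ (⟨n, by omega⟩ : Fin (d + 1)) = i := fun h => h2 (by rw [← h])
    rw [if_neg this, if_neg h2]

theorem toMatrix_fbasis (d : ℕ) (p q : Fin 2 → K) (h : p 0 * q 1 - p 1 * q 0 ≠ 0)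
    (M : Matrix (Fin 2) (Fin 2) K) (a b c e : K)
    (hp : M *ᵥ p = a • p + c • q) (hq : M *ᵥ q = b • p + e • q) (i j : Fin (d + 1)) :
    LinearMap.toMatrix (fbasis d p q h) (fbasis d p q h) (Matrix.toLin' (SymRep d M)) i j
      = if i.val = j.val then ((d : K) - j.val) * a + j.val * e
        else if i.val = j.val + 1 then ((d : K) - j.val) * c
        else if j.val = i.val + 1 then (j.val : K) * b else 0 := by
  rw [LinearMap.toMatrix_apply, fbasis_apply, Matrix.toLin'_apply,
    rep_fb d (choose_ne d) M p q a b c e hp hq j.val (by omega)]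
  have key : ∀ x y z : K, ((fbasis d p q h).repr (x • fb d p q j.val + y • fb d p q (j.val + 1)
      + z • fb d p q (j.val - 1))) i
      = x * (fbasis d p q h).repr (fb d p q j.val) i
        + y * (fbasis d p q h).repr (fb d p q (j.val + 1)) i
        + z * (fbasis d p q h).repr (fb d p q (j.val - 1)) i := by
    intro x y z
    simp
  rw [key, repr_fb d p q h i j.val (by omega), repr_fb d p q h i (j.val - 1) (by omega)]
  obtain ⟨i, hi⟩ := i
  obtain ⟨j, hj⟩ := j
  simp only
  rcases Nat.lt_or_ge j d with h1 | h1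
  · rw [repr_fb d p q h ⟨i, hi⟩ (j + 1) (by omega)]
    simp only
    by_cases h0 : i = j
    · have e1 : ¬ i = j + 1 := by omega
      rcases Nat.eq_zero_or_pos j with h3 | h3
      · subst h3; simp [h0]
      · have e2 : ¬ i = j - 1 := by omega
        rw [if_pos h0, if_pos h0, if_neg e1, if_neg e2]; ring
    · rw [if_neg h0, if_neg h0]
      by_cases h2 : i = j + 1
      · have e2 : ¬ i = j - 1 := by omega
        rw [if_pos h2, if_pos h2, if_neg e2]; ring
      · rw [if_neg h2, if_neg h2]
        rcases Nat.eq_zero_or_pos j with h3 | h3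
        · subst h3
          simp
        · by_cases h4 : j = i + 1
          · have e2 : i = j - 1 := by omega
            rw [if_pos h4, if_pos e2]; ring
          · have e2 : ¬ i = j - 1 := by omega
            rw [if_neg h4, if_neg e2]; ring
  · have e1 : j = d := by omega
    have e3 : ¬ i = j + 1 := by omega
    have e4 : ((d : K) - j) = 0 := by rw [e1]; ring
    rw [e4, if_neg e3]
    by_cases h0 : i = j
    · rcases Nat.eq_zero_or_pos j with h3 | h3
      · subst h3; simp [h0]
      · have e2 : ¬ i = j - 1 := by omega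
        rw [if_pos h0, if_pos h0, if_neg e2]; ring
    · rw [if_neg h0, if_neg h0]
      rcases Nat.eq_zero_or_pos j with h3 | h3
      · subst h3
        simp
      · by_cases h4 : j = i + 1
        · have e2 : i = j - 1 := by omega
          rw [if_pos h4, if_pos e2]; ring
        · have e2 : ¬ i = j - 1 := by omega
          rw [if_neg h4, if_neg e2]; ring

end charzero

end Pool.Agent.V1139.SL2
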