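import Pool.Agent.V1139.SL2.Leonard

set_option autoImplicit false

open Matrix Module

namespace Pool.Agent.V1139.Three

open Pool.Agent.V1139.Leonard

variable {K : Type} [Field K]

theorem exists_bas (v : Fin 3 → Fin 3 → K) (h : LinearIndependent K v) :
    ∃ c : Basis (Fin 3) K (Fin 3 → K), ∀ i, c i = v i :=
  ⟨basisOfLinearIndependentOfCardEqFinrank h (by simp), fun i => by simp⟩

theorem mat_of {V : Type} [AddCommGroup V] [Module K V] (c : Basis (Fin 3) K V)
    (X : Module.End K V) (N : Matrix (Fin 3) (Fin 3) K) (h : ∀ j, X (c j) = ∑ k, N k j • c k) :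
    LinearMap.toMatrix c c X = N := by
  ext i j
  rw [LinearMap.toMatrix_apply, h j, map_sum, Finset.sum_apply']
  simp only [map_smul, Finsupp.smul_apply, Basis.repr_self, smul_eq_mul]
  rw [Finset.sum_eq_single i]
  · simp
  · intro k _ hk
    rw [Finsupp.single_apply, if_neg hk, mul_zero]
  · intro h; exact absurd (Finset.mem_univ _) h

theorem li_of (v : Fin 3 → Fin 3 → K)
    (h : ∀ x0 x1 x2 : K, (∀ k, x0 * v 0 k + x1 * v 1 k + x2 * v 2 k = 0) →
      x0 = 0 ∧ x1 = 0 ∧ x2 = 0) : LinearIndependent K v := by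
  rw [Fintype.linearIndependent_iff]
  intro g hg
  obtain ⟨h0, h1, h2⟩ := h (g 0) (g 1) (g 2) (by
    intro k
    have := congrFun hg k
    simpa [Fin.sum_univ_three] using this)
  intro i
  fin_cases i
  · exact h0
  · exact h1
  · exact h2

theorem irr3 (a b c d e f g : K) (hb : b ≠ 0) (hc : c ≠ 0) (he : e ≠ 0) (hf : f ≠ 0) :
    IrredTridiag (!![a, b, 0; c, d, e; 0, f, g] : Matrix (Fin 3) (Fin 3) K) := by
  constructor
  · intro i j h
    fin_cases i <;> fin_cases j <;> simp_all
  · intro i j h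
    fin_cases i <;> fin_cases j <;> simp_all

theorem diag3 (a d g : K) :
    Diag (!![a, 0, 0; 0, d, 0; 0, 0, g] : Matrix (Fin 3) (Fin 3) K) := by
  intro i j h
  fin_cases i <;> fin_cases j <;> simp_all

end Pool.Agent.V1139.Three
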